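import Pool.Agent.Lib.lead.CXGraphRed
import Pool.Agent.H.MP_699b34_lc.C

namespace Pool.Agent.Results.MP_699b34_lc.NPC

open Pool.Agent.Lib.CX Pool.Agent.H.MP_699b34_lc List

def lt (φ : List (Cl3 ℕ)) (o : ℕ) : ℕ × Bool :=
  ((litOf (φ.getD (o / 3) (unit 0 true), o % 3)).1 % (3 * φ.length + 1),
    (litOf (φ.getD (o / 3) (unit 0 true), o % 3)).2)

def code (v : V) : ℕ := Nat.pair v.1 (Nat.pair v.2.1 v.2.2)

def red (k : ℕ) (φ : List (Cl3 ℕ)) : List (List ℕ) × ℕ :=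
  ((FF k (3 * φ.length + 1) (3 * (6 * φ.length + k)) (3 * φ.length) (lt φ)).map (map code),
    (3 * φ.length + 1) * (25 * (6 * φ.length + k)))

theorem inj : code.Injective := fun u v h => by
  simp only [code, Nat.pair_eq_pair] at h
  exact Prod.ext h.1 (Prod.ext h.2.1 h.2.2)

def LV (p : List (Cl3 ℕ) × ℕ) := lv (3 * p.1.length) (lt p.1) p.2
def P2 (p : List (Cl3 ℕ) × ℕ × ℕ) := p2 (3 * p.1.length) (lt p.1) p.2
def P3 (p : (ℕ × ℕ) × ℕ × ℕ) := p3 p.1.1 p.1.2 p.2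

theorem pt (k) : PT (red k) := by
  have : PT code := by unfold code Nat.pair; fun_prop
  have : PT LV := by unfold LV lv lt litOf unit; fun_prop
  have : PT P2 := by
    have e : ∀ φ o, lv (3 * length φ) (lt φ) o = LV (φ, o) := fun _ _ => rfl
    unfold P2 p2 S2 oc
    simp only [e]
    fun_prop
  have : PT P3 := by unfold P3 p3 sh; fun_prop
  have e : ∀ φ, p2 (3 * length φ) (lt φ) = fun i => P2 (φ, i) := fun _ => rfl
  have e' : ∀ R s, p3 R s = fun i => P3 ((R, s), i) := fun _ _ => rfl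
  unfold red FF p1 S1 ix
  simp only [e, e']
  fun_prop

theorem result (k : ℕ) (hk : 2 ≤ k) :
    NPComplete fun a : {a : List (List ℕ) × ℕ // Valid k a.1} => GD a.1.1 a.1.2 := by
  have hl : ∀ φ, ∀ o < 3 * length φ, (lt φ o).1 < 3 * φ.length + 1 := fun φ o _ => Nat.mod_lt _ (by omega)
  refine ⟨InNP.of_cert' (fun a (c : List ℕ) => (∀ x ∈ c, ∀ p ∈ a.1.1, x ∈ p) ∧ c.length ≤ a.1.2 ∧
    ∀ p ∈ a.1.1, ∀ v ∈ p, v ∈ c ∨ ∃ u ∈ c, (u, v) ∈ p.zip p.tail ∨ (v, u) ∈ p.zip p.tail)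
    (i := fun _ _ => inferInstance) size (by fun_prop) PB.size' ?_ ?_,
    NPHard.of_sat3 (fun φ => ⟨red k φ, valid_map inj (valid hk (by omega) (hl φ) (by omega))⟩)
      ((pt k).subtype _) fun φ hφ => ?_⟩
  · rintro a c ⟨h1, h2, h3⟩
    exact ⟨c.toFinset, by simpa using h1, (toFinset_card_le c).trans h2, fun p hp v hv h => by
      simpa [Adj] using (h3 p hp v hv).resolve_left (by simpa using h)⟩
  · rintro ⟨⟨F, M⟩, hF⟩ ⟨D, h1, h2, h3⟩
    obtain ⟨q, hq⟩ := exists_mem_of_length_pos (l := F) (by have : F.length = k := hF.1; omega)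
    have e : ∀ x, x ∈ q.filter (· ∈ D) ↔ x ∈ D := fun x => by simpa using fun h => h1 x h q hq
    refine ⟨q.filter (· ∈ D), ?_, fun x hx => h1 x ((e x).1 hx), le_trans ?_ h2, fun p hp v hv => ?_⟩
    · exact (size_sublist filter_sublist).trans ((size_mem hq).trans
        (show size F ≤ size (F, M) by rw [size_pair]; omega))
    · rw [← toFinset_card_of_nodup ((hF.2.1 q hq).filter _)]
      exact Finset.card_le_card fun x hx => (e x).1 (mem_toFinset.1 hx)
    · simp only [e]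
      exact (em _).imp_right (h3 p hp v hv)
  have c : ∀ j, ∀ h : j < φ.length, ∀ t < 3, lt φ (3 * j + t) = litOf (φ[j], t) := fun j h t ht => by
    have : (litOf (φ[j], t)).1 < 3 * φ.length := hφ _ (getElem_mem h) _ (by
      interval_cases t <;> simp [litOf, Cl3.vars])
    rw [lt, show (3 * j + t) / 3 = j by omega, show (3 * j + t) % 3 = t by omega, getD_eq_getElem _ _ h,
      Nat.mod_eq_of_lt (by omega)]
  have e : ∀ σ : ℕ → Bool, (∀ C ∈ φ, C.ok σ) ↔ ∀ o < 3 * φ.length, o % 3 = 0 → σ (lt φ o).1 = (lt φ o).2 ∨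
      σ (lt φ (o + 1)).1 = (lt φ (o + 1)).2 ∨ σ (lt φ (o + 2)).1 = (lt φ (o + 2)).2 := fun σ => by
    rw [forall_mem_iff_getElem]
    refine ⟨fun h o ho e => ?_, fun h j hj => ?_⟩
    · obtain ⟨j, rfl⟩ : ∃ j, o = 3 * j := ⟨o / 3, by omega⟩
      rw [← add_zero (3 * j), c j (by omega), add_zero, c j (by omega), c j (by omega)] <;> try omega
      exact h j (by omega)
    · have := h (3 * j + 0) (by omega) (by omega)
      rwa [c j hj 0 (by omega), add_zero, c j hj 1 (by omega), c j hj 2 (by omega)] at this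
  refine Iff.trans ⟨fun ⟨σ, h⟩ => complete (by omega) (hl φ) (by omega) σ ((e σ).1 h), fun h => ?_⟩
    (gd_map inj (by simp [FF])).symm
  obtain ⟨σ, h⟩ := sound (by omega) (hl φ) (by omega) h
  exact ⟨σ, (e σ).2 h⟩

end Pool.Agent.Results.MP_699b34_lc.NPC
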